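import Mathlib

/-!
# Springer's theorem and the Amer-Brumer theorem for a pair of quadrics

Two quadratic forms with integer coefficients with a common nontrivial zero over an extension of odd
degree of a field of characteristic zero have a common nontrivial zero over the field.
-/

namespace Pool.Agent.Y604.Z1

open Polynomial

variable {ι : Type*} [Fintype ι]

theorem exists_odd_irr_factor {F : Type*} [Field F] (n : ℕ) :
    ∀ h : Polynomial F, h.natDegree = n → Odd n →
      ∃ p : Polynomial F, Irreducible p ∧ Odd p.natDegree ∧ p ∣ h := by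
  induction n using Nat.strong_induction_on with
  | _ n ih =>
    intro h hn hodd
    have hpos : 0 < h.natDegree := by rw [hn]; exact hodd.pos
    obtain ⟨p1, hp1, h1, rfl⟩ := Polynomial.exists_irreducible_of_natDegree_pos hpos
    have hne : p1 * h1 ≠ 0 := by
      intro h0
      rw [h0] at hpos
      simp at hpos
    have hp10 : p1 ≠ 0 := left_ne_zero_of_mul hne
    have hh10 : h1 ≠ 0 := right_ne_zero_of_mul hne
    have hdeg : p1.natDegree + h1.natDegree = n := by
      rw [← hn, Polynomial.natDegree_mul hp10 hh10]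
    have hp1pos : 0 < p1.natDegree := hp1.natDegree_pos
    rcases Nat.even_or_odd p1.natDegree with he | ho
    · have hodd1 : Odd h1.natDegree := by
        by_contra hcon
        rw [Nat.not_odd_iff_even] at hcon
        have := he.add hcon
        rw [hdeg] at this
        exact (Nat.not_odd_iff_even.mpr this) hodd
      obtain ⟨p, hp, hpo, hpd⟩ := ih h1.natDegree (by omega) h1 rfl hodd1
      exact ⟨p, hp, hpo, hpd.mul_left _⟩
    · exact ⟨p1, hp1, ho, dvd_mul_right _ _⟩

theorem q_coeff {F : Type*} [Field F] (Q : ι → ι → F)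
    (v : ι → Polynomial F) (D : ℕ) (hD : ∀ i, (v i).natDegree ≤ D) :
    (∑ i, ∑ j, Polynomial.C (Q i j) * v i * v j).coeff (D + D) =
      ∑ i, ∑ j, Q i j * (v i).coeff D * (v j).coeff D := by
  rw [Polynomial.finsetSum_coeff]
  refine Finset.sum_congr rfl fun i _ => ?_
  rw [Polynomial.finsetSum_coeff]
  refine Finset.sum_congr rfl fun j _ => ?_
  rw [Polynomial.coeff_mul_add_eq_of_natDegree_le
    ((Polynomial.natDegree_C_mul_le _ _).trans (hD i)) (hD j), Polynomial.coeff_C_mul]

theorem q_natDegree {F : Type*} [Field F] (Q : ι → ι → F)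
    (v : ι → Polynomial F) (D : ℕ) (hD : ∀ i, (v i).natDegree ≤ D) :
    (∑ i, ∑ j, Polynomial.C (Q i j) * v i * v j).natDegree ≤ D + D := by
  refine Polynomial.natDegree_sum_le_of_forall_le _ _ fun i _ => ?_
  refine Polynomial.natDegree_sum_le_of_forall_le _ _ fun j _ => ?_
  refine Polynomial.natDegree_mul_le.trans ?_
  have h1 := (Polynomial.natDegree_C_mul_le (Q i j) (v i)).trans (hD i)
  have h2 := hD j
  omega

theorem q_dvd_mod {F : Type*} [Field F] (Q : ι → ι → F)
    (p : Polynomial F) (v v' : ι → Polynomial F) (hvv : ∀ i, p ∣ v i - v' i)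
    (h : p ∣ ∑ i, ∑ j, Polynomial.C (Q i j) * v i * v j) :
    p ∣ ∑ i, ∑ j, Polynomial.C (Q i j) * v' i * v' j := by
  have h1 : p ∣ (∑ i, ∑ j, Polynomial.C (Q i j) * v i * v j) -
      ∑ i, ∑ j, Polynomial.C (Q i j) * v' i * v' j := by
    rw [← Finset.sum_sub_distrib]
    refine Finset.dvd_sum fun i _ => ?_
    rw [← Finset.sum_sub_distrib]
    refine Finset.dvd_sum fun j _ => ?_
    have h2 : Polynomial.C (Q i j) * v i * v j - Polynomial.C (Q i j) * v' i * v' j =
        Polynomial.C (Q i j) * v i * (v j - v' j) + (v i - v' i) * (Polynomial.C (Q i j) * v' j) := by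
      ring
    rw [h2]
    exact dvd_add (Dvd.dvd.mul_left (hvv j) _) (Dvd.dvd.mul_right (hvv i) _)
  have h3 := dvd_sub h h1
  simpa using h3

theorem q_smul {F : Type*} [Field F] (Q : ι → ι → F)
    (g : Polynomial F) (u : ι → Polynomial F) :
    ∑ i, ∑ j, Polynomial.C (Q i j) * (g * u i) * (g * u j) =
      g * (g * ∑ i, ∑ j, Polynomial.C (Q i j) * u i * u j) := by
  rw [Finset.mul_sum, Finset.mul_sum]
  refine Finset.sum_congr rfl fun i _ => ?_
  rw [Finset.mul_sum, Finset.mul_sum]
  refine Finset.sum_congr rfl fun j _ => ?_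
  ring

/-- Springer's theorem in polynomial form: an anisotropic form has no nontrivial zero modulo an
irreducible polynomial of odd degree. -/
theorem springer_poly {F : Type*} [Field F] (Q : ι → ι → F)
    (han : ∀ w : ι → F, ∑ i, ∑ j, Q i j * w i * w j = 0 → w = 0)
    (d : ℕ) (p : Polynomial F) (hp : Irreducible p) (hodd : Odd p.natDegree)
    (hd : p.natDegree = d) (v : ι → Polynomial F) (hv : ∃ i, ¬ p ∣ v i)
    (h : p ∣ ∑ i, ∑ j, Polynomial.C (Q i j) * v i * v j) : False := by
  classical
  induction d using Nat.strong_induction_on generalizing p v with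
  | _ d ih =>
    have hp0 : p ≠ 0 := hp.ne_zero
    have hdpos : 0 < d := by rw [← hd]; exact hodd.pos
    -- minimal degree bound
    have hex : ∃ D : ℕ, ∃ v : ι → Polynomial F, (∃ i, v i ≠ 0) ∧ (∀ i, (v i).natDegree ≤ D) ∧
        D < d ∧ p ∣ ∑ i, ∑ j, Polynomial.C (Q i j) * v i * v j := by
      refine ⟨d - 1, fun i => v i % p, ?_, ?_, by omega, ?_⟩
      · obtain ⟨i, hi⟩ := hv
        refine ⟨i, fun h0 => hi ?_⟩
        exact (EuclideanDomain.mod_eq_zero).mp h0
      · intro i
        have h1 := Polynomial.natDegree_mod_lt (v i) (q := p) (by omega)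
        show (v i % p).natDegree ≤ d - 1
        omega
      · refine q_dvd_mod Q p v _ (fun i => ?_) h
        have h1 := EuclideanDomain.div_add_mod (v i) p
        refine ⟨v i / p, ?_⟩
        show v i - v i % p = p * (v i / p)
        linear_combination -h1
    obtain ⟨D, ⟨u, ⟨i0, hi0⟩, huD, hDd, hpu⟩, hmin⟩ : ∃ D : ℕ, (∃ v : ι → Polynomial F,
        (∃ i, v i ≠ 0) ∧ (∀ i, (v i).natDegree ≤ D) ∧
        D < d ∧ p ∣ ∑ i, ∑ j, Polynomial.C (Q i j) * v i * v j) ∧
        ∀ D' < D, ¬ (∃ v : ι → Polynomial F, (∃ i, v i ≠ 0) ∧ (∀ i, (v i).natDegree ≤ D') ∧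
        D' < d ∧ p ∣ ∑ i, ∑ j, Polynomial.C (Q i j) * v i * v j) :=
      ⟨Nat.find hex, Nat.find_spec hex, fun D' hD' => Nat.find_min hex hD'⟩
    -- leading coefficients do not vanish
    have hw : (fun i => (u i).coeff D) ≠ 0 := by
      intro h0
      have h1 : ∀ i, (u i).coeff D = 0 := fun i => congrFun h0 i
      rcases Nat.eq_zero_or_pos D with hD0 | hDpos
      · apply hi0
        have h2 := huD i0
        rw [hD0] at h2
        have h3 := Polynomial.eq_C_of_natDegree_le_zero h2
        rw [h3]
        have h4 := h1 i0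
        rw [hD0] at h4
        rw [h4, Polynomial.C_0]
      · refine hmin (D - 1) (by omega) ⟨u, ⟨i0, hi0⟩, fun i => ?_, by omega, hpu⟩
        by_contra hcon
        have h2 : (u i).natDegree = D := by have := huD i; omega
        have h3 : (u i).leadingCoeff = 0 := by
          rw [Polynomial.leadingCoeff, h2]; exact h1 i
        rw [Polynomial.leadingCoeff_eq_zero] at h3
        rw [h3] at h2
        simp at h2
        omega
    have hcoef : (∑ i, ∑ j, Polynomial.C (Q i j) * u i * u j).coeff (D + D) ≠ 0 := by
      rw [q_coeff Q u D huD]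
      intro h0
      exact hw (han _ h0)
    have hqne : (∑ i, ∑ j, Polynomial.C (Q i j) * u i * u j) ≠ 0 := by
      intro h0
      rw [h0] at hcoef
      simp at hcoef
    have hqdeg : (∑ i, ∑ j, Polynomial.C (Q i j) * u i * u j).natDegree = D + D :=
      le_antisymm (q_natDegree Q u D huD) (Polynomial.le_natDegree_of_ne_zero hcoef)
    obtain ⟨g, hg⟩ := hpu
    have hg0 : g ≠ 0 := by
      rintro rfl
      rw [mul_zero] at hg
      exact hqne hg
    have hdeg : p.natDegree + g.natDegree = D + D := by
      rw [← hqdeg, hg, Polynomial.natDegree_mul hp0 hg0]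
    have hgodd : Odd g.natDegree := by
      by_contra hcon
      rw [Nat.not_odd_iff_even] at hcon
      have h1 := hodd.add_even hcon
      rw [hdeg] at h1
      exact (Nat.not_odd_iff_even.mpr ⟨D, rfl⟩) h1
    have hglt : g.natDegree < d := by omega
    obtain ⟨p', hp', hp'odd, hp'g⟩ := exists_odd_irr_factor g.natDegree g rfl hgodd
    have hp'deg : p'.natDegree ≤ g.natDegree := Polynomial.natDegree_le_of_dvd hp'g hg0
    have hp'pos : 0 < p'.natDegree := hp'odd.pos
    refine ih p'.natDegree (by omega) p' hp' hp'odd rfl u ?_ ?_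
    · by_contra hcon
      push Not at hcon
      choose t ht using hcon
      have hpt : p ∣ ∑ i, ∑ j, Polynomial.C (Q i j) * t i * t j := by
        have h1 : p ∣ p' * (p' * ∑ i, ∑ j, Polynomial.C (Q i j) * t i * t j) := by
          rw [← q_smul]
          refine ⟨g, ?_⟩
          rw [← hg]
          refine Finset.sum_congr rfl fun i _ => Finset.sum_congr rfl fun j _ => ?_
          rw [← ht i, ← ht j]
        have hndvd : ¬ p ∣ p' := by
          intro h2
          have h3 := Polynomial.natDegree_le_of_dvd h2 hp'.ne_zero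
          omega
        have hprime := hp.prime
        rcases hprime.dvd_or_dvd h1 with h2 | h2
        · exact absurd h2 hndvd
        · rcases hprime.dvd_or_dvd h2 with h3 | h3
          · exact absurd h3 hndvd
          · exact h3
      have hti0 : t i0 ≠ 0 := by
        intro h0
        apply hi0
        rw [ht i0, h0, mul_zero]
      have hDpos : 0 < D := by
        have h1 := huD i0
        rw [ht i0, Polynomial.natDegree_mul hp'.ne_zero hti0] at h1
        omega
      refine hmin (D - 1) (by omega) ⟨t, ⟨i0, hti0⟩, fun i => ?_, by omega, hpt⟩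
      by_cases hti : t i = 0
      · rw [hti]; simp
      · have h1 := huD i
        rw [ht i, Polynomial.natDegree_mul hp'.ne_zero hti] at h1
        omega
    · rw [hg]
      exact hp'g.mul_left _

/-! ### Amer-Brumer -/

/-- The bilinear form `A + t B` on vectors of polynomials. -/
noncomputable def bf {F : Type*} [Field F] (A B : ι → ι → F) (v w : ι → F[X]) : F[X] :=
  ∑ i, ∑ j, (C (A i j) + X * C (B i j)) * v i * w j

theorem bf_comm {F : Type*} [Field F] {A B : ι → ι → F} (hA : ∀ i j, A i j = A j i)
    (hB : ∀ i j, B i j = B j i) (v w : ι → F[X]) : bf A B v w = bf A B w v := by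
  unfold bf
  rw [Finset.sum_comm]
  refine Finset.sum_congr rfl fun i _ => Finset.sum_congr rfl fun j _ => ?_
  rw [hA j i, hB j i]
  ring

theorem bf_sub_left {F : Type*} [Field F] (A B : ι → ι → F) (v v' w : ι → F[X]) :
    bf A B (v - v') w = bf A B v w - bf A B v' w := by
  unfold bf
  rw [← Finset.sum_sub_distrib]
  refine Finset.sum_congr rfl fun i _ => ?_
  rw [← Finset.sum_sub_distrib]
  refine Finset.sum_congr rfl fun j _ => ?_
  rw [Pi.sub_apply]
  ring

theorem bf_sub_right {F : Type*} [Field F] (A B : ι → ι → F) (v w w' : ι → F[X]) :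
    bf A B v (w - w') = bf A B v w - bf A B v w' := by
  unfold bf
  rw [← Finset.sum_sub_distrib]
  refine Finset.sum_congr rfl fun i _ => ?_
  rw [← Finset.sum_sub_distrib]
  refine Finset.sum_congr rfl fun j _ => ?_
  rw [Pi.sub_apply]
  ring

theorem bf_smul_left {F : Type*} [Field F] (A B : ι → ι → F) (l : F[X]) (v w : ι → F[X]) :
    bf A B (l • v) w = l * bf A B v w := by
  unfold bf
  rw [Finset.mul_sum]
  refine Finset.sum_congr rfl fun i _ => ?_
  rw [Finset.mul_sum]
  refine Finset.sum_congr rfl fun j _ => ?_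
  rw [Pi.smul_apply, smul_eq_mul]
  ring

theorem bf_smul_right {F : Type*} [Field F] (A B : ι → ι → F) (l : F[X]) (v w : ι → F[X]) :
    bf A B v (l • w) = l * bf A B v w := by
  unfold bf
  rw [Finset.mul_sum]
  refine Finset.sum_congr rfl fun i _ => ?_
  rw [Finset.mul_sum]
  refine Finset.sum_congr rfl fun j _ => ?_
  rw [Pi.smul_apply, smul_eq_mul]
  ring

theorem coeff_mul_sub_one {F : Type*} [Field F] (E : ℕ) (a b : F[X])
    (ha : a.natDegree ≤ E + 1) (hb : b.natDegree ≤ E + 1) :
    (a * b).coeff (E + E + 1) =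
      a.coeff (E + 1) * b.coeff E + a.coeff E * b.coeff (E + 1) := by
  have key : ∀ k ∈ Finset.HasAntidiagonal.antidiagonal (E + E + 1),
      k ≠ (E + 1, E) → k ≠ (E, E + 1) → a.coeff k.1 * b.coeff k.2 = 0 := by
    rintro ⟨k, l⟩ hk h1 h2
    rw [Finset.HasAntidiagonal.mem_antidiagonal] at hk
    dsimp only at hk ⊢
    rcases Nat.lt_or_ge (E + 1) k with h | h
    · rw [Polynomial.coeff_eq_zero_of_natDegree_lt (by omega), zero_mul]
    · rcases Nat.lt_or_ge (E + 1) l with h' | h'
      · rw [Polynomial.coeff_eq_zero_of_natDegree_lt (p := b) (by omega), mul_zero]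
      · exfalso
        rcases Nat.lt_or_ge k E with h3 | h3
        · omega
        · rcases Nat.eq_or_lt_of_le h3 with h4 | h4
          · apply h2
            rw [Prod.mk.injEq]
            omega
          · apply h1
            rw [Prod.mk.injEq]
            omega
  rw [Polynomial.coeff_mul]
  have hne : ((E + 1, E) : ℕ × ℕ) ≠ (E, E + 1) := by
    intro h
    rw [Prod.mk.injEq] at h
    omega
  rw [← Finset.sum_subset (s₁ := {(E + 1, E), (E, E + 1)})]
  · rw [Finset.sum_pair hne]
  · intro k hk
    rw [Finset.mem_insert, Finset.mem_singleton] at hk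
    rw [Finset.HasAntidiagonal.mem_antidiagonal]
    rcases hk with rfl | rfl
    · show E + 1 + E = E + E + 1
      omega
    · show E + (E + 1) = E + E + 1
      omega
  · intro k hk hk'
    rw [Finset.mem_insert, Finset.mem_singleton, not_or] at hk'
    exact key k hk hk'.1 hk'.2

/-- **Amer-Brumer**, polynomial form. -/
theorem amer_brumer {F : Type*} [Field F] (A B : ι → ι → F)
    (hA : ∀ i j, A i j = A j i) (hB : ∀ i j, B i j = B j i) (D : ℕ) :
    ∀ v : ι → F[X], v ≠ 0 → (∀ i, (v i).natDegree ≤ D) → bf A B v v = 0 →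
      ∃ y : ι → F, y ≠ 0 ∧ (∑ i, ∑ j, A i j * y i * y j = 0) ∧
        (∑ i, ∑ j, B i j * y i * y j = 0) := by
  induction D with
  | zero =>
    intro v hv hdeg h
    have hvC : ∀ i, v i = C ((v i).coeff 0) := fun i =>
      Polynomial.eq_C_of_natDegree_le_zero (hdeg i)
    have hform : bf A B v v = C (∑ i, ∑ j, A i j * (v i).coeff 0 * (v j).coeff 0) +
        X * C (∑ i, ∑ j, B i j * (v i).coeff 0 * (v j).coeff 0) := by
      unfold bf
      rw [map_sum, map_sum, Finset.mul_sum, ← Finset.sum_add_distrib]
      refine Finset.sum_congr rfl fun i _ => ?_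
      rw [map_sum, map_sum, Finset.mul_sum, ← Finset.sum_add_distrib]
      refine Finset.sum_congr rfl fun j _ => ?_
      conv_lhs => rw [hvC i, hvC j]
      simp only [map_mul]
      ring
    rw [h] at hform
    refine ⟨fun i => (v i).coeff 0, ?_, ?_, ?_⟩
    · intro h0
      apply hv
      funext i
      rw [hvC i, show (v i).coeff 0 = 0 from congrFun h0 i, C_0, Pi.zero_apply]
    · have := congrArg (fun p => Polynomial.coeff p 0) hform
      simp only [coeff_zero, coeff_add, coeff_C_zero, mul_coeff_zero, coeff_X_zero, zero_mul,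
        add_zero] at this
      exact this.symm
    · have := congrArg (fun p => Polynomial.coeff p 1) hform
      simp only [coeff_zero, coeff_add] at this
      rw [Polynomial.coeff_C, if_neg one_ne_zero, Polynomial.coeff_X_mul, Polynomial.coeff_C_zero,
        zero_add] at this
      exact this.symm
  | succ E ih =>
    intro v hv hdeg h
    -- the leading vector
    set u : ι → F := fun i => (v i).coeff (E + 1) with hu
    by_cases hu0 : u = 0
    · -- the degree drops
      refine ih v hv (fun i => ?_) h
      by_contra hcon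
      have h2 : (v i).natDegree = E + 1 := by have := hdeg i; omega
      have h3 : (v i).leadingCoeff = 0 := by
        rw [Polynomial.leadingCoeff, h2]; exact congrFun hu0 i
      rw [Polynomial.leadingCoeff_eq_zero] at h3
      rw [h3, natDegree_zero] at h2
      omega
    -- the form on the leading vector
    have hsplit : bf A B v v = (∑ i, ∑ j, C (A i j) * v i * v j) +
        X * ∑ i, ∑ j, C (B i j) * v i * v j := by
      unfold bf
      rw [Finset.mul_sum, ← Finset.sum_add_distrib]
      refine Finset.sum_congr rfl fun i _ => ?_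
      rw [Finset.mul_sum, ← Finset.sum_add_distrib]
      refine Finset.sum_congr rfl fun j _ => ?_
      ring
    have hBu : ∑ i, ∑ j, B i j * u i * u j = 0 := by
      have h1 := congrArg (fun p => Polynomial.coeff p (E + 1 + (E + 1) + 1)) (hsplit.symm.trans h)
      simp only [coeff_zero, coeff_add] at h1
      rw [Polynomial.coeff_X_mul, q_coeff B v (E + 1) hdeg,
        Polynomial.coeff_eq_zero_of_natDegree_lt
          (lt_of_le_of_lt (q_natDegree A v (E + 1) hdeg) (Nat.lt_succ_self _)), zero_add] at h1
      exact h1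
    by_cases hc : ∑ i, ∑ j, A i j * u i * u j = 0
    · exact ⟨u, hu0, hc, hBu⟩
    set c : F := ∑ i, ∑ j, A i j * u i * u j with hcdef
    -- the coefficient at `2E+2`
    set b1 : F := ∑ i, ∑ j, B i j * (v i).coeff E * u j with hb1
    have hb1' : ∑ i, ∑ j, B i j * u i * (v j).coeff E = b1 := by
      rw [hb1, Finset.sum_comm]
      refine Finset.sum_congr rfl fun i _ => Finset.sum_congr rfl fun j _ => ?_
      rw [hB j i]
      ring
    have hmid : c + (b1 + b1) = 0 := by
      have h1 := congrArg (fun p => Polynomial.coeff p (E + E + 1 + 1)) (hsplit.symm.trans h)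
      simp only [coeff_zero, coeff_add] at h1
      rw [Polynomial.coeff_X_mul, show E + E + 1 + 1 = (E + 1) + (E + 1) by omega,
        q_coeff A v (E + 1) hdeg] at h1
      have h2 : (∑ i, ∑ j, C (B i j) * v i * v j).coeff (E + E + 1) = b1 + b1 := by
        rw [Polynomial.finsetSum_coeff]
        conv_rhs =>
          arg 1
          rw [← hb1']
        rw [hb1, ← Finset.sum_add_distrib]
        refine Finset.sum_congr rfl fun i _ => ?_
        rw [Polynomial.finsetSum_coeff, ← Finset.sum_add_distrib]
        refine Finset.sum_congr rfl fun j _ => ?_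
        rw [mul_assoc, Polynomial.coeff_C_mul, coeff_mul_sub_one E _ _ (hdeg i) (hdeg j)]
        show B i j * (u i * (v j).coeff E + (v i).coeff E * u j) = _
        ring
      rw [h2] at h1
      exact h1
    -- the reflection
    set U : ι → F[X] := fun i => C (u i) with hU
    have hUU : bf A B U U = C c := by
      have h1 : bf A B U U = C c + X * C (∑ i, ∑ j, B i j * u i * u j) := by
        unfold bf
        rw [hcdef, map_sum, map_sum, Finset.mul_sum, ← Finset.sum_add_distrib]
        refine Finset.sum_congr rfl fun i _ => ?_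
        rw [map_sum, map_sum, Finset.mul_sum, ← Finset.sum_add_distrib]
        refine Finset.sum_congr rfl fun j _ => ?_
        simp only [map_mul, hU]
        ring
      rw [h1, hBu, C_0, mul_zero, add_zero]
    set S : F[X] := bf A B v U with hS
    set l : F[X] := C c⁻¹ * (S + S) with hl
    have hlc : l * C c = S + S := by
      rw [hl, mul_right_comm, ← C_mul, inv_mul_cancel₀ hc, C_1, one_mul]
    set w : ι → F[X] := v - l • U with hw
    have hSplitS : S = (∑ i, ∑ j, C (A i j * u j) * v i) + X * ∑ i, ∑ j, C (B i j * u j) * v i := by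
      rw [hS]
      unfold bf
      rw [Finset.mul_sum, ← Finset.sum_add_distrib]
      refine Finset.sum_congr rfl fun i _ => ?_
      rw [Finset.mul_sum, ← Finset.sum_add_distrib]
      refine Finset.sum_congr rfl fun j _ => ?_
      simp only [map_mul, hU]
      ring
    have hLdeg : ∀ M : ι → ι → F, (∑ i, ∑ j, C (M i j * u j) * v i).natDegree ≤ E + 1 := by
      intro M
      refine Polynomial.natDegree_sum_le_of_forall_le _ _ fun i _ => ?_
      refine Polynomial.natDegree_sum_le_of_forall_le _ _ fun j _ => ?_
      exact (Polynomial.natDegree_C_mul_le _ _).trans (hdeg i)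
    have hLcoef : ∀ (M : ι → ι → F) (n : ℕ), (∑ i, ∑ j, C (M i j * u j) * v i).coeff n =
        ∑ i, ∑ j, M i j * (v i).coeff n * u j := by
      intro M n
      rw [Polynomial.finsetSum_coeff]
      refine Finset.sum_congr rfl fun i _ => ?_
      rw [Polynomial.finsetSum_coeff]
      refine Finset.sum_congr rfl fun j _ => ?_
      rw [Polynomial.coeff_C_mul]
      ring
    have hS1 : S.coeff (E + 1) = c + b1 := by
      rw [hSplitS, coeff_add, Polynomial.coeff_X_mul, hLcoef, hLcoef]
    have hS2 : ∀ n, E + 1 < n → S.coeff n = 0 := by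
      intro n hn
      obtain ⟨m, rfl⟩ : ∃ m, n = m + 1 := ⟨n - 1, by omega⟩
      rw [hSplitS, coeff_add, Polynomial.coeff_X_mul,
        Polynomial.coeff_eq_zero_of_natDegree_lt (lt_of_le_of_lt (hLdeg A) hn), zero_add]
      rcases Nat.lt_or_ge (E + 1) m with h1 | h1
      · exact Polynomial.coeff_eq_zero_of_natDegree_lt (lt_of_le_of_lt (hLdeg B) h1)
      · have h2 : m = E + 1 := by omega
        rw [h2, hLcoef]
        exact hBu
    have hl1 : l.coeff (E + 1) = 1 := by
      rw [hl, Polynomial.coeff_C_mul, coeff_add, hS1]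
      have h1 : c + b1 + (c + b1) = c := by linear_combination hmid
      rw [h1, inv_mul_cancel₀ hc]
    have hl2 : ∀ n, E + 1 < n → l.coeff n = 0 := by
      intro n hn
      rw [hl, Polynomial.coeff_C_mul, coeff_add, hS2 n hn, add_zero, mul_zero]
    refine ih w ?_ ?_ ?_
    · -- nonzero
      intro hw0
      have h1 : v = l • U := by
        rw [hw] at hw0
        exact sub_eq_zero.mp hw0
      have h2 : bf A B v v = l * (l * C c) := by
        rw [h1, bf_smul_left, bf_smul_right, hUU]
      rw [h] at h2
      have hcC : (C c : F[X]) ≠ 0 := by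
        rw [Ne, Polynomial.C_eq_zero]
        exact hc
      have h3 : l = 0 := by
        rcases mul_eq_zero.mp h2.symm with h4 | h4
        · exact h4
        · rcases mul_eq_zero.mp h4 with h5 | h5
          · exact h5
          · exact absurd h5 hcC
      apply hv
      rw [h1, h3, zero_smul]
    · -- degree
      intro i
      rw [Polynomial.natDegree_le_iff_coeff_eq_zero]
      intro n hn
      have h1 : (w i).coeff n = (v i).coeff n - l.coeff n * u i := by
        rw [hw, Pi.sub_apply, Pi.smul_apply, smul_eq_mul, coeff_sub, hU]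
        show _ - (l * C (u i)).coeff n = _
        rw [Polynomial.coeff_mul_C]
      rw [h1]
      rcases Nat.eq_or_lt_of_le (Nat.succ_le_of_lt hn) with h2 | h2
      · rw [← h2]
        show (v i).coeff (E + 1) - l.coeff (E + 1) * u i = 0
        rw [hl1, one_mul]
        exact sub_self _
      · rw [hl2 n h2, Polynomial.coeff_eq_zero_of_natDegree_lt (lt_of_le_of_lt (hdeg i) h2)]
        ring
    · -- isotropic
      rw [hw, bf_sub_left, bf_sub_right, bf_sub_right, bf_smul_left, bf_smul_left, bf_smul_right,
        bf_smul_right, h, hUU, bf_comm hA hB U v, ← hS, hlc]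
      ring

/-- A homogeneous polynomial of degree two is given by a matrix. -/
theorem exists_matrix {R : Type*} [CommRing R] (f : MvPolynomial ι R) (hf : f.IsHomogeneous 2) :
    ∃ M : ι → ι → R, f = ∑ i, ∑ j, MvPolynomial.C (M i j) * MvPolynomial.X i * MvPolynomial.X j := by
  classical
  have h1 : f ∈ MvPolynomial.homogeneousSubmodule ι R 2 := hf
  rw [← MvPolynomial.homogeneousSubmodule_one_pow, MvPolynomial.homogeneousSubmodule_one_eq_span_X,
    pow_two, Submodule.span_mul_span] at h1
  clear hf
  induction h1 using Submodule.span_induction with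
  | mem x hx =>
    obtain ⟨a, ⟨i, rfl⟩, b, ⟨j, rfl⟩, rfl⟩ := hx
    refine ⟨fun i' j' => if i' = i ∧ j' = j then 1 else 0, ?_⟩
    rw [Finset.sum_eq_single i, Finset.sum_eq_single j]
    · simp
    · intro b _ hb
      simp [hb]
    · intro h
      exact absurd (Finset.mem_univ _) h
    · intro b _ hb
      simp [hb]
    · intro h
      exact absurd (Finset.mem_univ _) h
  | zero => exact ⟨fun _ _ => 0, by simp⟩
  | add x y _ _ hx hy =>
    obtain ⟨M, hM⟩ := hx
    obtain ⟨N, hN⟩ := hy
    refine ⟨fun i j => M i j + N i j, ?_⟩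
    rw [hM, hN, ← Finset.sum_add_distrib]
    refine Finset.sum_congr rfl fun i _ => ?_
    rw [← Finset.sum_add_distrib]
    refine Finset.sum_congr rfl fun j _ => ?_
    rw [map_add]
    ring
  | smul a x _ hx =>
    obtain ⟨M, hM⟩ := hx
    refine ⟨fun i j => a * M i j, ?_⟩
    rw [hM, MvPolynomial.smul_eq_C_mul, Finset.mul_sum]
    refine Finset.sum_congr rfl fun i _ => ?_
    rw [Finset.mul_sum]
    refine Finset.sum_congr rfl fun j _ => ?_
    rw [map_mul]
    ring

/-- Twice an integral quadratic form is given by a symmetric integral matrix. -/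
theorem exists_symm (f : MvPolynomial ι ℤ) (hf : f.IsHomogeneous 2) :
    ∃ M : ι → ι → ℤ, (∀ i j, M i j = M j i) ∧
      f + f = ∑ i, ∑ j, MvPolynomial.C (M i j) * MvPolynomial.X i * MvPolynomial.X j := by
  obtain ⟨M, hM⟩ := exists_matrix f hf
  refine ⟨fun i j => M i j + M j i, fun i j => add_comm _ _, ?_⟩
  have h2 : ∑ i, ∑ j, MvPolynomial.C (M i j) * MvPolynomial.X i * MvPolynomial.X j =
      ∑ i, ∑ j, (MvPolynomial.C (M j i) * MvPolynomial.X i * MvPolynomial.X j :
        MvPolynomial ι ℤ) := by
    rw [Finset.sum_comm]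
    refine Finset.sum_congr rfl fun i _ => Finset.sum_congr rfl fun j _ => ?_
    ring
  calc f + f = ∑ i, ∑ j, MvPolynomial.C (M i j) * MvPolynomial.X i * MvPolynomial.X j +
      ∑ i, ∑ j, (MvPolynomial.C (M j i) * MvPolynomial.X i * MvPolynomial.X j :
        MvPolynomial ι ℤ) := by
        conv_lhs => rw [hM]
        conv_lhs =>
          arg 2
          rw [h2]
    _ = _ := by
        rw [← Finset.sum_add_distrib]
        refine Finset.sum_congr rfl fun i _ => ?_
        rw [← Finset.sum_add_distrib]
        refine Finset.sum_congr rfl fun j _ => ?_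
        rw [map_add]
        ring

theorem aeval_symm {f : MvPolynomial ι ℤ} {M : ι → ι → ℤ}
    (h : f + f = ∑ i, ∑ j, MvPolynomial.C (M i j) * MvPolynomial.X i * MvPolynomial.X j)
    {L : Type*} [Field L] (x : ι → L) :
    ∑ i, ∑ j, (M i j : L) * x i * x j = 2 * MvPolynomial.aeval x f := by
  have h1 := congrArg (MvPolynomial.aeval x) h
  rw [map_add, map_sum] at h1
  rw [two_mul, h1]
  refine Finset.sum_congr rfl fun i _ => ?_
  rw [map_sum]
  refine Finset.sum_congr rfl fun j _ => ?_
  rw [map_mul, map_mul, MvPolynomial.aeval_X, MvPolynomial.aeval_X, MvPolynomial.aeval_C]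
  simp

/-- The main theorem for a pair of symmetric matrices. -/
theorem common_zero_matrix (F L : Type*) [Field F] [CharZero F] [Field L] [Algebra F L]
    [FiniteDimensional F L] (hodd : Odd (Module.finrank F L)) (A B : ι → ι → F)
    (hA : ∀ i j, A i j = A j i) (hB : ∀ i j, B i j = B j i) (x : ι → L) (hx : x ≠ 0)
    (hxA : ∑ i, ∑ j, algebraMap F L (A i j) * x i * x j = 0)
    (hxB : ∑ i, ∑ j, algebraMap F L (B i j) * x i * x j = 0) :
    ∃ y : ι → F, y ≠ 0 ∧ (∑ i, ∑ j, A i j * y i * y j = 0) ∧
        (∑ i, ∑ j, B i j * y i * y j = 0) := by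
  classical
  obtain ⟨θ, hθ⟩ := Field.exists_primitive_element F L
  have hint : IsIntegral F θ := IsIntegral.of_finite F θ
  set p : F[X] := minpoly F θ with hp
  have hpirr : Irreducible p := minpoly.irreducible hint
  have hpdeg : p.natDegree = Module.finrank F L := by
    rw [← IntermediateField.adjoin.finrank hint, hθ]
    exact IntermediateField.finrank_top'
  -- coordinates are polynomials in `θ`
  have hP : ∀ i, ∃ P : F[X], aeval θ P = x i := by
    intro i
    have h1 : x i ∈ (IntermediateField.adjoin F {θ}) := by rw [hθ]; trivial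
    have h2 : x i ∈ (IntermediateField.adjoin F {θ}).toSubalgebra := h1
    rw [IntermediateField.adjoin_simple_toSubalgebra_of_isAlgebraic hint.isAlgebraic,
      Algebra.adjoin_singleton_eq_range_aeval] at h2
    obtain ⟨P, hP⟩ := h2
    exact ⟨P, hP⟩
  choose P hP using hP
  have hdvd : ∀ M : ι → ι → F, ∑ i, ∑ j, algebraMap F L (M i j) * x i * x j = 0 →
      p ∣ ∑ i, ∑ j, C (M i j) * P i * P j := by
    intro M hM
    apply minpoly.dvd
    rw [map_sum, ← hM]
    refine Finset.sum_congr rfl fun i _ => ?_
    rw [map_sum]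
    refine Finset.sum_congr rfl fun j _ => ?_
    rw [map_mul, map_mul, Polynomial.aeval_C, hP, hP]
  obtain ⟨gA, hgA⟩ := hdvd A hxA
  obtain ⟨gB, hgB⟩ := hdvd B hxB
  -- the rational function field
  let K := FractionRing F[X]
  let φ : F →+* K := (algebraMap F[X] K).comp C
  let T : K := algebraMap F[X] K X
  let Q : ι → ι → K := fun i j => φ (A i j) + T * φ (B i j)
  have hQ : ∀ i j, Q i j = algebraMap F[X] K (C (A i j) + X * C (B i j)) := by
    intro i j
    rw [map_add, map_mul]
    rfl
  by_contra hcon
  -- the form over the rational function field is anisotropic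
  have han : ∀ w : ι → K, ∑ i, ∑ j, Q i j * w i * w j = 0 → w = 0 := by
    intro w hw
    by_contra hw0
    apply hcon
    obtain ⟨b, hb⟩ := IsLocalization.exist_integer_multiples_of_finite (nonZeroDivisors F[X]) w
    choose v hv using hb
    have hb0 : (b : F[X]) ≠ 0 := nonZeroDivisors.ne_zero b.2
    have hinj : Function.Injective (algebraMap F[X] K) := IsFractionRing.injective F[X] K
    have hv' : ∀ i, algebraMap F[X] K (v i) = algebraMap F[X] K b * w i := by
      intro i
      rw [hv i, Algebra.smul_def]
    refine amer_brumer A B hA hB (Finset.univ.sup fun i => (v i).natDegree) v ?_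
      (fun i => Finset.le_sup (f := fun i => (v i).natDegree) (Finset.mem_univ i)) ?_
    · intro h0
      apply hw0
      funext i
      have h1 := hv' i
      rw [h0, Pi.zero_apply, map_zero] at h1
      rcases mul_eq_zero.mp h1.symm with h2 | h2
      · exfalso
        apply hb0
        apply hinj
        rw [h2, map_zero]
      · exact h2
    · apply hinj
      rw [map_zero]
      have h1 : algebraMap F[X] K (bf A B v v) =
          algebraMap F[X] K b * (algebraMap F[X] K b * ∑ i, ∑ j, Q i j * w i * w j) := by
        unfold bf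
        rw [map_sum, Finset.mul_sum, Finset.mul_sum]
        refine Finset.sum_congr rfl fun i _ => ?_
        rw [map_sum, Finset.mul_sum, Finset.mul_sum]
        refine Finset.sum_congr rfl fun j _ => ?_
        rw [map_mul, map_mul, hv', hv', hQ]
        ring
      rw [h1, hw, mul_zero, mul_zero]
  -- Springer over the rational function field
  have hpφ : (p.map φ).natDegree = Module.finrank F L := by
    rw [Polynomial.natDegree_map, hpdeg]
  obtain ⟨q, hq, hqodd, hqp⟩ := exists_odd_irr_factor _ (p.map φ) hpφ hodd
  refine springer_poly Q han _ q hq hqodd rfl (fun i => (P i).map φ) ?_ ?_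
  · -- some coordinate is not divisible
    obtain ⟨i, hi⟩ : ∃ i, x i ≠ 0 := by
      by_contra hall
      push Not at hall
      exact hx (funext hall)
    refine ⟨i, fun hqi => ?_⟩
    have hcop : IsCoprime p (P i) := by
      rw [hpirr.coprime_iff_not_dvd]
      rintro ⟨g, hg⟩
      apply hi
      rw [← hP i, hg, map_mul, minpoly.aeval, zero_mul]
    obtain ⟨a, b, hab⟩ := hcop
    have h1 := congrArg (Polynomial.map φ) hab
    rw [Polynomial.map_add, Polynomial.map_mul, Polynomial.map_mul, Polynomial.map_one] at h1
    apply hq.not_isUnit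
    apply isUnit_of_dvd_one
    rw [← h1]
    exact dvd_add (hqp.mul_left _) (hqi.mul_left _)
  · -- divisibility
    have h1 : ∑ i, ∑ j, C (Q i j) * (P i).map φ * (P j).map φ =
        p.map φ * (gA.map φ + C T * gB.map φ) := by
      rw [mul_add, mul_left_comm, ← Polynomial.map_mul, ← Polynomial.map_mul, ← hgA, ← hgB,
        Polynomial.map_sum, Polynomial.map_sum, Finset.mul_sum, ← Finset.sum_add_distrib]
      refine Finset.sum_congr rfl fun i _ => ?_
      rw [Polynomial.map_sum, Polynomial.map_sum, Finset.mul_sum, ← Finset.sum_add_distrib]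
      refine Finset.sum_congr rfl fun j _ => ?_
      rw [Polynomial.map_mul, Polynomial.map_mul, Polynomial.map_mul, Polynomial.map_mul,
        Polynomial.map_C, Polynomial.map_C]
      show C (φ (A i j) + T * φ (B i j)) * _ * _ = _
      rw [map_add, map_mul]
      ring
    rw [h1]
    exact hqp.mul_right _

/-- **(Z1c)** Two integral quadratic forms with a common nontrivial zero over an extension of odd
degree of a field of characteristic zero have a common nontrivial zero over the field itself. -/
theorem common_zero_of_odd (ι : Type*) [Fintype ι] (F L : Type*) [Field F] [CharZero F]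
    [Field L] [Algebra F L] [FiniteDimensional F L] (hodd : Odd (Module.finrank F L))
    (f : Fin 2 → MvPolynomial ι ℤ) (hf : ∀ j, (f j).IsHomogeneous 2) (x : ι → L) (hx : x ≠ 0)
    (h : ∀ j, MvPolynomial.aeval x (f j) = 0) :
    ∃ y : ι → F, y ≠ 0 ∧ ∀ j, MvPolynomial.aeval y (f j) = 0 := by
  obtain ⟨A, hA, hAe⟩ := exists_symm (f 0) (hf 0)
  obtain ⟨B, hB, hBe⟩ := exists_symm (f 1) (hf 1)
  obtain ⟨y, hy, hyA, hyB⟩ := common_zero_matrix F L hodd (fun i j => (A i j : F))
    (fun i j => (B i j : F)) (fun i j => by rw [hA i j]) (fun i j => by rw [hB i j]) x hx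
    (by
      simp only [map_intCast]
      rw [aeval_symm hAe, h 0, mul_zero])
    (by
      simp only [map_intCast]
      rw [aeval_symm hBe, h 1, mul_zero])
  refine ⟨y, hy, ?_⟩
  rw [aeval_symm hAe] at hyA
  rw [aeval_symm hBe] at hyB
  have h0 : MvPolynomial.aeval y (f 0) = 0 := (mul_eq_zero.mp hyA).resolve_left two_ne_zero
  have h1 : MvPolynomial.aeval y (f 1) = 0 := (mul_eq_zero.mp hyB).resolve_left two_ne_zero
  intro j
  fin_cases j
  · exact h0
  · exact h1

end Pool.Agent.Y604.Z1
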